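import Pool.Agent.H503R3.NF.All
import Pool.Agent.H503R3.FR.TaskG1_helper798
import Pool.Agent.H503R3.FR.TaskG2_helper929
import Pool.Agent.H347.FR.TaskG3
import Pool.Agent.H510R3.FR.G4
import Pool.Agent.H503R3.NF.Final
import Pool.Agent.H71R3.NF.Split
import Pool.Agent.H787R3.NF.Normal
import Pool.Agent.H503R3.NF.TaskNegAlg_helper676
import Pool.Agent.H66R3.NF.Neg
import Pool.Agent.H503R3.NF.TaskFC_helper699
import Pool.Agent.H503R3.NF.TaskFS_helper875
import Pool.Agent.H503R3.NF.Top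
import Pool.Agent.H503R3.NF.VanC_helper700

/-!
# The second theorem of Bertini fails for normal F-injective varieties

`k` is an algebraically closed field of characteristic 2, `w = X₁³X₂ + X₀X₁X₂³` and
`R = k[X₀², X₁⁴, X₁²X₂², X₂⁴, X₁²w, X₂²w] ⊆ k[X₀, X₁, X₂]`. The affine variety
`Spec R ⊆ 𝔸⁶ ⊆ ℙ⁶` is normal and F-injective, but its section by a hyperplane
`a₀ + a₁ t₁ + ... + a₆ t₆ = 0` with `a₁ ≠ 0` is never F-injective.
-/

set_option autoImplicit false

namespace Pool.Agent.Results.MP_f0334c_ag.NoBertiniFInjective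

open H503R3.NF
open H503R3.FR (R r hyp)

/-- For every algebraically closed field `k` of characteristic 2 there is a normal F-injective
affine variety `Spec R` in `𝔸⁶ ⊆ ℙ⁶` all of whose sections by hyperplanes
`a₀ + a₁ t₁ + ... + a₆ t₆ = 0` with `a₁ ≠ 0` are not F-injective. -/
theorem result (k : Type) [Field k] [IsAlgClosed k] [CharP k 2] :
    IsDomain (R k) ∧ IsIntegrallyClosed (R k) ∧ FInjective 2 (R k) ∧
      Algebra.adjoin k (Set.range (r k)) = ⊤ ∧
      ∀ a : Fin 7 → k, a 1 ≠ 0 → ¬ FInjective 2 (R k ⧸ Ideal.span {hyp k a}) :=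
  ⟨inferInstance,
    Pool.Agent.H787R3.NF.taskNormal H503R3.FR.Mem782.taskMem H503R3.FR.Coord54.taskCoord
      H503R3.FR.Parity768.taskParity H503R3.FR.Root331.taskRoot k,
    finjective H503R3.FR.Mem782.taskMem VanCx.taskVanC TaskFS.taskFS Top.taskTop TaskFC699.taskFC
      Split71.taskSplit H503R3.FR.Coord54.taskCoord H503R3.FR.Parity768.taskParity
      H503R3.FR.Psi600.taskPsi
      (H503R3.FR.taskZsDim Pool.Agent.H66R3.FR.taskZsReg H3R3.FR.ZsPrime.taskZsPrime) k
      (frationalAll k),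
    H503R3.FR.gens k,
    fun a ha => Pool.Agent.H66R3.NF.taskNeg taskNegAlg H503R3.FR.G1H798.taskG1
      H503R3.FR.G3h347.taskG3 H503R3.FR.G4.taskG4 H503R3.FR.taskG2 H503R3.FR.KV557.taskKV
      Pool.Agent.H66R3.FR.taskZsReg H503R3.FR.Mem782.taskMem k a ha⟩

end Pool.Agent.Results.MP_f0334c_ag.NoBertiniFInjective
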